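import Pool.Agent.H86.CMLib9.H50.FT.Two
import Pool.Agent.H86.CMLib9.H50.FT.Oproj
import Pool.Agent.H86.CMLib.R913.Adj.Weight

/-!
# Four variables: the Lie algebra of the Tate tensors is an ideal
-/

set_option autoImplicit false

namespace Pool.Agent.H50.FT

open Module Pool.Agent.Y114.RM Pool.Agent.Y114.TF Pool.Agent.H204R3.GP Pool.Agent.R913.Adj
  Pool.Agent

section main

variable {ι : Type} [Fintype ι] [DecidableEq ι] {n : ι → ℕ} {ℓ : ℕ} [hℓ : Fact ℓ.Prime]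
  {Γ : Type} [Group Γ] [TopologicalSpace Γ] [IsTopologicalGroup Γ] [CompactSpace Γ]

/-- **Four variables.** If the realization is semisimple and the Tate tensors in at most four
variables are killed by `𝔤`, every element of `𝔤` is the sum of a central element of `𝔤` and of an
element which kills all Tate tensors. -/
theorem ideal_of_four (ρ : ∀ i, Representation ℚ_[ℓ] Γ (Fin (n i) → ℚ_[ℓ]))
    (hρ : ∀ i, Continuous fun g => LinearMap.toMatrix' (ρ i g))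
    {𝔤 : Submodule ℚ_[ℓ] (End ℚ_[ℓ] (∀ i, Fin (n i) → ℚ_[ℓ]))} (h𝔤 : IsMotivic ρ 𝔤)
    (hss : FiniteIndexSemisimple (sumRep ρ))
    (h4 : ∀ m ≤ 4, ∀ φ : Tensor ℚ_[ℓ] (∀ i, Fin (n i) → ℚ_[ℓ]) m, TateTensor (sumRep ρ) φ →
      ∀ X ∈ 𝔤, KillsTensor X φ) {X : End ℚ_[ℓ] (∀ i, Fin (n i) → ℚ_[ℓ])} (hX : X ∈ 𝔤) :
    ∃ Z ∈ 𝔤, (∀ Y ∈ 𝔤, Y * Z = Z * Y) ∧
      ∀ (m : ℕ) (φ : Tensor ℚ_[ℓ] (∀ i, Fin (n i) → ℚ_[ℓ]) m), TateTensor (sumRep ρ) φ →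
        KillsTensor (X - Z) φ := by
  obtain ⟨L, hL, hLie, hAd, -⟩ := Y41.RM.lieL' ℚ_[ℓ] (∀ i, Fin (n i) → ℚ_[ℓ]) Γ (sumRep ρ)
  have hnd : NonDeg L := nonDeg_of_semisimple hss hL hLie hAd
  have hLG : L ≤ 𝔤 := fun X hX => h𝔤.algebraic X fun m φ h =>
    ((hL X).1 hX).2 m φ (h𝔤.tate m φ h)
  -- the projection to `L` is a Tate tensor
  have hT : TateTensor (sumRep ρ) (E4 (oproj L hnd)) := by
    refine tate_E4 (sumRep ρ) (Δ := ⊤) inferInstance fun γ _ R => ?_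
    refine oproj_AdE hnd (hAd γ) (fun Y hY => ?_) R
    have h1 := hAd γ⁻¹ Y hY
    rwa [inv_inv] at h1
  have hid : ∀ Y ∈ 𝔤, ∀ Z ∈ L, Y * Z - Z * Y ∈ L := by
    intro Y hY Z hZ
    have h1 := comm_of_kills (h4 4 le_rfl _ hT Y hY) Z
    rw [oproj_of_mem hnd hZ] at h1
    rw [← h1]
    exact oproj_mem hnd _
  have hC : ∀ Z ∈ L, Z * (X - oproj L hnd X) = (X - oproj L hnd X) * Z := fun Z hZ =>
    sub_oproj_comm hnd hLie (hid X hX) hZ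
  obtain ⟨Δ, hΔ, hcΔ⟩ := Y220.RM.tfr ℓ ι n Γ ρ hρ (comm L) (comm_conj hAd) (comm_order hL)
  have hE : TateTensor (sumRep ρ) (E2 (X - oproj L hnd X)) :=
    tate_E2 (sumRep ρ) hΔ fun γ hγ => (hcΔ γ hγ _ hC).symm
  refine ⟨X - oproj L hnd X, 𝔤.sub_mem hX (hLG (oproj_mem hnd X)), fun Y hY =>
    kills_E2.1 (h4 2 (by norm_num) _ hE Y hY), fun m φ hφ => ?_⟩
  rw [sub_sub_cancel]
  exact ((hL _).1 (oproj_mem hnd X)).2 m φ hφ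

/-- if the centre of `𝔤` is spanned by the weight operator, all Tate tensors are killed by `𝔤` -/
theorem tate_of_four (ρ : ∀ i, Representation ℚ_[ℓ] Γ (Fin (n i) → ℚ_[ℓ]))
    (hρ : ∀ i, Continuous fun g => LinearMap.toMatrix' (ρ i g))
    {𝔤 : Submodule ℚ_[ℓ] (End ℚ_[ℓ] (∀ i, Fin (n i) → ℚ_[ℓ]))} (h𝔤 : IsMotivic ρ 𝔤)
    (hss : FiniteIndexSemisimple (sumRep ρ))
    (h4 : ∀ m ≤ 4, ∀ φ : Tensor ℚ_[ℓ] (∀ i, Fin (n i) → ℚ_[ℓ]) m, TateTensor (sumRep ρ) φ →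
      ∀ X ∈ 𝔤, KillsTensor X φ) {w : ι → ℤ} {γ : Γ} (hγ : ActsPurely ρ w γ)
    (hcen : ∀ Z ∈ 𝔤, (∀ Y ∈ 𝔤, Y * Z = Z * Y) →
      ∃ c : ℚ_[ℓ], Z = c • weightOp (fun i => Fin (n i) → ℚ_[ℓ]) w)
    (m : ℕ) (φ : Tensor ℚ_[ℓ] (∀ i, Fin (n i) → ℚ_[ℓ]) m) (hφ : TateTensor (sumRep ρ) φ)
    {X : End ℚ_[ℓ] (∀ i, Fin (n i) → ℚ_[ℓ])} (hX : X ∈ 𝔤) : KillsTensor X φ := by
  obtain ⟨L, hL, -, -, -⟩ := Y41.RM.lieL' ℚ_[ℓ] (∀ i, Fin (n i) → ℚ_[ℓ]) Γ (sumRep ρ)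
  obtain ⟨Z, hZ, hZc, hXZ⟩ := ideal_of_four ρ hρ h𝔤 hss h4 hX
  obtain ⟨c, rfl⟩ := hcen Z hZ hZc
  have h1 : X - c • weightOp (fun i => Fin (n i) → ℚ_[ℓ]) w ∈ L :=
    (hL _).2 (mem_LT_of_semisimple (sumRep ρ) hss hXZ)
  have h2 : weightOp (k := ℚ_[ℓ]) (fun i => Fin (n i) → ℚ_[ℓ]) w ∈ L :=
    (hL _).2 (mem_LT_of_semisimple (sumRep ρ) hss fun m φ hφ => weight_kills ρ hss hγ m φ hφ)
  have h3 := L.add_mem h1 (L.smul_mem c h2)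
  rw [sub_add_cancel] at h3
  exact ((hL _).1 h3).2 m φ hφ

end main

end Pool.Agent.H50.FT
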