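import Pool.Agent.H86.CMLib9.H50.FT.Tens
import Pool.Agent.H86.CMLib.H204R3.SP.Lie

/-!
# Tensors in two variables
-/

set_option autoImplicit false

namespace Pool.Agent.H50.FT

open Module Pool.Agent.Y114.RM

variable {k : Type} [Field k] {V : Type} [AddCommGroup V] [Module k V]

/-- the tensor in two variables attached to an endomorphism -/
def E2 (P : End k V) : Tensor k V 2 :=
  Pool.Agent.H204R3.SP.bil2 (LinearMap.mk₂ k
    (fun (a b : V × Dual k V) => b.2 (P a.1))
      (fun a a' b => by rw [Prod.fst_add, map_add, map_add])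
      (fun c a b => by rw [Prod.smul_fst, map_smul, map_smul])
      (fun a b b' => by rw [Prod.snd_add, LinearMap.add_apply])
      (fun c a b => by rw [Prod.smul_snd, LinearMap.smul_apply]))

theorem E2_apply (P : End k V) (v : Fin 2 → V × Dual k V) : E2 P v = (v 1).2 (P (v 0).1) := rfl

theorem der_E2 (P Y : End k V) (v : Fin 2 → V × Dual k V) :
    der Y (E2 P) v = (v 1).2 ((P * Y - Y * P) (v 0).1) := by
  unfold der
  rw [Fin.sum_univ_two, E2_apply, E2_apply, Function.update_self, Function.update_self,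
    Function.update_of_ne Fin.zero_ne_one.symm, Function.update_of_ne Fin.zero_ne_one]
  change (v 1).2 (P (Y (v 0).1)) + -((v 1).2 (Y (P (v 0).1))) = _
  rw [LinearMap.sub_apply, map_sub, Module.End.mul_apply, Module.End.mul_apply, sub_eq_add_neg]

theorem kills_E2 {P Y : End k V} : KillsTensor Y (E2 P) ↔ Y * P = P * Y := by
  constructor
  · intro h
    refine LinearMap.ext fun x => ?_
    rw [eq_comm, ← sub_eq_zero, ← Module.forall_dual_apply_eq_zero_iff k]
    intro ξ
    have h1 := der_E2 P Y ![(x, 0), (0, ξ)]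
    unfold der at h1
    rw [h ![(x, 0), (0, ξ)]] at h1
    rw [← LinearMap.sub_apply]
    exact h1.symm
  · intro h v
    have h1 := der_E2 P Y v
    unfold der at h1
    rw [h1, h, sub_self, LinearMap.zero_apply, map_zero]

variable {Γ : Type} [Group Γ] (ρ : Representation k Γ V)

theorem tate_E2 {P : End k V} {Δ : Subgroup Γ} (hΔ : Δ.FiniteIndex)
    (hP : ∀ γ ∈ Δ, P * ρ γ = ρ γ * P) : TateTensor ρ (E2 P) := by
  refine ⟨Δ, hΔ, fun s hs v => ?_⟩
  rw [E2_apply, E2_apply]
  change (v 1).2 (ρ s⁻¹ (P (ρ s (v 0).1))) = (v 1).2 (P (v 0).1)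
  congr 1
  rw [← Module.End.mul_apply P, hP s hs, Module.End.mul_apply, ← Module.End.mul_apply,
    ← map_mul, inv_mul_cancel, map_one, Module.End.one_apply]

theorem comm_of_tate_E2 {P : End k V} (h : TateTensor ρ (E2 P)) :
    ∃ Δ : Subgroup Γ, Δ.FiniteIndex ∧ ∀ γ ∈ Δ, P * ρ γ = ρ γ * P := by
  obtain ⟨Δ, hΔ, h1⟩ := h
  refine ⟨Δ, hΔ, fun s hs => ?_⟩
  refine LinearMap.ext fun x => ?_
  rw [← sub_eq_zero, ← Module.forall_dual_apply_eq_zero_iff k]
  intro ξ
  have h2 := h1 s hs ![(x, 0), (0, (ρ s).dualMap ξ)]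
  rw [E2_apply, E2_apply] at h2
  change ξ (ρ s (ρ s⁻¹ (P (ρ s x)))) = ξ (ρ s (P x)) at h2
  have h3 : ρ s (ρ s⁻¹ (P (ρ s x))) = P (ρ s x) := by
    rw [← Module.End.mul_apply, ← map_mul, mul_inv_cancel, map_one, Module.End.one_apply]
  rw [h3] at h2
  rw [map_sub, Module.End.mul_apply, Module.End.mul_apply, h2, sub_self]

end Pool.Agent.H50.FT
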